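import Pool.Agent.H38.AB.Targets

/-!
# DJ: there are not too many pairwise disjoint dependent sets
-/

set_option autoImplicit false

open Pool.Agent.H38.RB Pool.Agent.H38.PS Pool.Agent.H82.RD Pool.Agent.H38.AB

namespace Pool.Agent.H94.AB

theorem qh_pos' {q : ℕ} (hq : 0 < q) : 0 < qh q := by
  unfold qh
  split_ifs <;> omega

theorem qh_le' {q X : ℕ} (hX : 2 ≤ X) (hq : q ≤ X) : qh q ≤ 4 * X := by
  unfold qh
  split_ifs <;> omega

theorem sum_Kaq (q T : ℕ) (hq : 0 < q) (Q : Finset ℕ) :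
    ∑ c ∈ Finset.range (qh q), (Kaq q T c Q).card = (T + 1) ^ Q.card := by
  have h := Finset.card_eq_sum_card_fiberwise
    (s := Fintype.piFinset fun _ : Q => Finset.range (T + 1))
    (t := Finset.range (qh q)) (f := fun k => (∏ p : Q, (p : ℕ) ^ k p) % qh q)
    (fun k _ => Finset.mem_coe.2 (Finset.mem_range.2 (Nat.mod_lt _ (qh_pos' hq))))
  rw [Fintype.card_piFinset, Finset.prod_const, Finset.card_univ, Finset.card_range,
    Fintype.card_coe] at h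
  exact h.symm

theorem MHyp_mono' {q : ℕ} [Fact q.Prime] {u : ℕ} {ι : Type} {S : Finset ι}
    {W : ι → Fin u → ℤ_[q]} {π den : ι → ℕ} {num : ι → Fin u → ℤ} {ζ : Fin u → ℤ_[q]}
    {κ e g D H H' : ℕ} (hH : H ≤ H') (h : MHyp q u S W π den num ζ κ e g D H) :
    MHyp q u S W π den num ζ κ e g D H' :=
  ⟨fun s hs => ⟨(h.1 s hs).1, (h.1 s hs).2.trans hH⟩, h.2⟩

theorem pf_DJ (hDJH : T_DJH) (hDJN : T_DJN) (hMTH : T_MTH) : T_DJ := by
  intro β hβ0 hβ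
  obtain ⟨X₀, hX₀, hN⟩ := hDJN β hβ0 hβ
  refine ⟨X₀, hX₀, ?_⟩
  intro X q e Ω m S R hX hq hqX hm hΩ he hSΩ hSp hR hdisj
  have : Fact q.Prime := ⟨hq⟩
  have hX2 : 2 ≤ X := hX₀.trans hX
  have hX1 : 1 ≤ X ^ 30 := Nat.one_le_pow _ _ (by omega)
  obtain ⟨Q, hQ⟩ : ∃ Q, Q = Finset.univ.biUnion R := ⟨_, rfl⟩
  have hRH : ∀ i, (R i).Nonempty ∧ Disjoint S (R i) ∧ (∀ p ∈ R i, p.Prime ∧ p ≠ q) ∧
      Dpt q e (X ^ 30) S (R i) :=
    fun i => ⟨(hR i).1, (hR i).2.2.1, (hR i).2.2.2.1, (hR i).2.2.2.2.2⟩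
  obtain ⟨r, -, -, -, -, -, hr, -⟩ := hDJH q e 1 0 (X ^ 30) m S Q R le_rfl hX1 hSp hRH hdisj hQ
  have hQc : Q.card ≤ m * Ω := by
    calc Q.card ≤ ∑ i, (R i).card := by rw [hQ]; exact Finset.card_biUnion_le
      _ ≤ ∑ _i : Fin m, Ω := Finset.sum_le_sum fun i _ => (hR i).2.1
      _ = m * Ω := by simp
  have hQp : ∏ p ∈ Q, p ≤ X ^ m := by
    rw [hQ, Finset.prod_biUnion (fun i _ j _ hij => hdisj i j hij)]
    calc ∏ i, ∏ p ∈ R i, p ≤ ∏ _i : Fin m, X :=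
          Finset.prod_le_prod' fun i _ => (hR i).2.2.2.2.1
      _ = X ^ m := by simp
  obtain ⟨T, hT, hT2⟩ := hN X q r e Ω S.card Q.card m hX hq.two_le hqX hm hΩ hSΩ hQc hr he
  have hcard : ∀ c, (Kaq q T c Q).card * (4 * X) < (T + 1) ^ Q.card := by
    intro c
    obtain ⟨r', κ, W, den, num, ζ, hr', hκ, hM⟩ :=
      hDJH q e T c (X ^ 30) m S Q R hT hX1 hSp hRH hdisj hQ
    obtain rfl : r' = r := by omega
    obtain ⟨A, B, hA, hB, hAB, hXT, hNC, hfin⟩ := hT2 κ hκ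
    have hH : (∏ p ∈ Q, p) ^ T ≤ X ^ (m * T) := by
      rw [pow_mul]
      exact Nat.pow_le_pow_left hQp T
    have hle := hMTH q r' (Q → ℕ) (Kaq q T c Q) W (fun k => ∏ p : Q, (p : ℕ) ^ k p) den num ζ
      κ (e - 3) (1 + qh q) ((m + 2) * T * (X ^ 30) ^ (m + 1)) (X ^ (m * T)) A B
      (MHyp_mono' hH hM) hA hB hAB hXT hNC
    exact (Nat.mul_le_mul_right _ hle).trans_lt hfin
  have hsum := sum_Kaq q T hq.pos Q
  have hqh := qh_le' hX2 hqX
  have hqp := qh_pos' hq.pos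
  have h1 : (∑ c ∈ Finset.range (qh q), (Kaq q T c Q).card) * (4 * X) <
      qh q * (T + 1) ^ Q.card := by
    rw [Finset.sum_mul]
    calc ∑ c ∈ Finset.range (qh q), (Kaq q T c Q).card * (4 * X)
        < ∑ c ∈ Finset.range (qh q), (T + 1) ^ Q.card :=
          Finset.sum_lt_sum_of_nonempty (Finset.nonempty_range_iff.2 hqp.ne')
            (fun c _ => hcard c)
      _ = qh q * (T + 1) ^ Q.card := by
          rw [Finset.sum_const, Finset.card_range, smul_eq_mul]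
  rw [hsum] at h1
  have h2 : qh q * (T + 1) ^ Q.card ≤ 4 * X * (T + 1) ^ Q.card := Nat.mul_le_mul_right _ hqh
  have h3 : (T + 1) ^ Q.card * (4 * X) = 4 * X * (T + 1) ^ Q.card := by ring
  omega

end Pool.Agent.H94.AB
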