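import Pool.Agent.H38.AB.Targets

/-!
# DJN: choice of the parameters
-/

set_option autoImplicit false

open Pool.Agent.H38.RB Pool.Agent.H38.PS Pool.Agent.H82.RD Pool.Agent.H38.AB Filter

namespace Pool.Agent.H94.AB

/-- the analytic part -/
theorem djn_ev (β : ℝ) (hβ0 : 0 ≤ β) (hβ : β < 1 / 2) : ∃ X₀ : ℕ, 2 ≤ X₀ ∧
    ∀ X Ω e : ℕ, X₀ ≤ X → (Ω : ℝ) ≤ Real.log X ^ β →
    Real.exp (Real.log X ^ (1 / 2 : ℝ) / 4) ≤ e →
    100 ≤ Nat.log 2 X + 1 ∧ 2 * Ω + 2 ≤ Nat.log 2 X + 1 ∧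
    20 * (Ω + 1) * (Nat.log 2 (Nat.log 2 X + 1) + 1) ≤ (Nat.log 2 X + 1) ^ 2 ∧
    2 ^ (22 + 12 * (Nat.log 2 (Nat.log 2 X + 1) + 1) +
      20 * (Ω + 1) * (Nat.log 2 (Nat.log 2 X + 1) + 1)) ≤ e := by
  have h1 : ∀ᶠ y : ℝ in atTop, Real.log y ≤ (1 / 5000) * y ^ (1 / 2 - β) := by
    have h := (isLittleO_log_rpow_atTop (show 0 < 1 / 2 - β by linarith)).bound
      (show (0 : ℝ) < 1 / 5000 by norm_num)
    filter_upwards [h, eventually_ge_atTop 1] with y hy hy1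
    rw [Real.norm_eq_abs, Real.norm_eq_abs,
      abs_of_nonneg (Real.rpow_nonneg (show (0 : ℝ) ≤ y by linarith) _)] at hy
    exact (le_abs_self _).trans hy
  have h2 : ∀ᶠ y : ℝ in atTop, 5 ≤ Real.log y := Real.tendsto_log_atTop.eventually_ge_atTop _
  have h3 := (Real.tendsto_log_atTop.comp (tendsto_natCast_atTop_atTop (R := ℝ))).eventually
    ((h1.and h2).and (eventually_ge_atTop (160000 : ℝ)))
  obtain ⟨X₀, hX₀⟩ := eventually_atTop.1 h3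
  refine ⟨max X₀ 2, le_max_right _ _, ?_⟩
  intro X Ω e hX hΩ he
  obtain ⟨⟨g1, g2⟩, g3⟩ := hX₀ X ((le_max_left _ _).trans hX)
  have hX2 : 2 ≤ X := (le_max_right _ _).trans hX
  have hX0 : X ≠ 0 := by omega
  simp only [Function.comp] at g1 g2 g3
  obtain ⟨y, hy⟩ : ∃ y, y = Real.log (X : ℝ) := ⟨_, rfl⟩
  rw [← hy] at g1 g2 g3 hΩ he
  obtain ⟨L, hL⟩ : ∃ L, L = Nat.log 2 X + 1 := ⟨_, rfl⟩
  obtain ⟨w, hw⟩ : ∃ w, w = Nat.log 2 L + 1 := ⟨_, rfl⟩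
  rw [← hL, ← hw]
  have hy0 : 0 < y := by linarith
  have hlog2 := Real.log_two_gt_d9
  have hlog2' := Real.log_two_lt_d9
  have hyL : y ≤ L := by
    have e1 : (X : ℝ) ≤ 2 ^ L := by
      exact_mod_cast (hL ▸ (Nat.lt_pow_succ_log_self (by norm_num) X).le : X ≤ 2 ^ L)
    have e2 : y ≤ L * Real.log 2 := by
      rw [hy, ← Real.log_pow]
      exact Real.log_le_log (by exact_mod_cast (by omega : 0 < X)) e1
    have e3 : (0 : ℝ) ≤ L := Nat.cast_nonneg _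
    nlinarith
  have hL3 : (L : ℝ) ≤ 3 * y := by
    have e1 : (2 : ℝ) ^ (Nat.log 2 X) ≤ X := by exact_mod_cast Nat.pow_log_le_self 2 hX0
    have e2 : Nat.log 2 X * Real.log 2 ≤ y := by
      rw [hy, ← Real.log_pow]
      exact Real.log_le_log (by positivity) e1
    have e4 : (Nat.log 2 X : ℝ) * 0.5 ≤ y :=
      (mul_le_mul_of_nonneg_left (by linarith) (Nat.cast_nonneg _)).trans e2
    rw [hL]
    push_cast
    linarith
  have hL0 : L ≠ 0 := by omega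
  have hw3 : (w : ℝ) ≤ 3 * Real.log y := by
    have e1 : (2 : ℝ) ^ (Nat.log 2 L) ≤ L := by exact_mod_cast Nat.pow_log_le_self 2 hL0
    have e2 : Nat.log 2 L * Real.log 2 ≤ Real.log (3 * y) := by
      rw [← Real.log_pow]
      exact Real.log_le_log (by positivity) (e1.trans hL3)
    rw [Real.log_mul (by norm_num) (by linarith)] at e2
    have e3 : Real.log 3 ≤ 2 := by
      have := Real.log_le_sub_one_of_pos (show (0 : ℝ) < 3 by norm_num)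
      linarith
    have e4 : (Nat.log 2 L : ℝ) * 0.5 ≤ Nat.log 2 L * Real.log 2 :=
      mul_le_mul_of_nonneg_left (by linarith) (Nat.cast_nonneg _)
    rw [hw]
    push_cast
    linarith
  have hyβ : 1 ≤ y ^ β := Real.one_le_rpow (by linarith) hβ0
  have hyh : y ^ (1 / 2 : ℝ) * y ^ (1 / 2 : ℝ) = y := by
    rw [← Real.rpow_add hy0]
    norm_num
  have hy4 : 400 ≤ y ^ (1 / 2 : ℝ) := by
    have e0 : 0 ≤ y ^ (1 / 2 : ℝ) := Real.rpow_nonneg hy0.le _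
    by_contra hlt
    push Not at hlt
    nlinarith
  have hyββ : y ^ β * y ^ (1 / 2 - β) = y ^ (1 / 2 : ℝ) := by
    rw [← Real.rpow_add hy0]
    congr 1
    ring
  have hyβ2 : y ^ β ≤ y ^ (1 / 2 : ℝ) := Real.rpow_le_rpow_of_exponent_le (by linarith) hβ.le
  have hN : (22 + 12 * (w : ℝ) + 20 * ((Ω : ℝ) + 1) * w) ≤ y ^ (1 / 2 : ℝ) / 4 := by
    have e1 : (0 : ℝ) ≤ w := Nat.cast_nonneg _
    have e2 : (Ω : ℝ) * w ≤ y ^ β * (3 * Real.log y) :=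
      mul_le_mul hΩ hw3 e1 (by linarith)
    have e3 : (1 : ℝ) * w ≤ y ^ β * (3 * Real.log y) :=
      mul_le_mul hyβ hw3 e1 (by linarith)
    have e4 : y ^ β * (3 * Real.log y) ≤ (3 / 5000) * y ^ (1 / 2 : ℝ) := by
      have e5 := mul_le_mul_of_nonneg_left g1 (show 0 ≤ y ^ β by linarith)
      calc y ^ β * (3 * Real.log y) = 3 * (y ^ β * Real.log y) := by ring
        _ ≤ 3 * (y ^ β * (1 / 5000 * y ^ (1 / 2 - β))) := by linarith
        _ = (3 / 5000) * (y ^ β * y ^ (1 / 2 - β)) := by ring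
        _ = _ := by rw [hyββ]
    calc (22 + 12 * (w : ℝ) + 20 * ((Ω : ℝ) + 1) * w) = 22 + 32 * (1 * (w : ℝ)) +
          20 * ((Ω : ℝ) * w) := by ring
      _ ≤ y ^ (1 / 2 : ℝ) / 4 := by linarith
  have hLr : (100 : ℝ) ≤ L := by linarith
  refine ⟨by exact_mod_cast hLr, ?_, ?_, ?_⟩
  · have e1 : (2 * (Ω : ℝ) + 2) ≤ L := by nlinarith
    exact_mod_cast e1
  · have e1 : (0 : ℝ) ≤ w := Nat.cast_nonneg _
    have e2 : (20 * ((Ω : ℝ) + 1) * w) ≤ (L : ℝ) ^ 2 := by nlinarith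
    exact_mod_cast e2
  · have e1 : (2 : ℝ) ^ (22 + 12 * w + 20 * (Ω + 1) * w) ≤ e := by
      refine le_trans ?_ he
      have e2 : (2 : ℝ) ^ (22 + 12 * w + 20 * (Ω + 1) * w) =
          Real.exp (((22 + 12 * w + 20 * (Ω + 1) * w : ℕ) : ℝ) * Real.log 2) := by
        rw [← Real.log_pow, Real.exp_log (by positivity)]
      rw [e2]
      refine Real.exp_le_exp.2 ?_
      have e3 : (0 : ℝ) ≤ ((22 + 12 * w + 20 * (Ω + 1) * w : ℕ) : ℝ) := Nat.cast_nonneg _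
      have e4 : ((22 + 12 * w + 20 * (Ω + 1) * w : ℕ) : ℝ) =
          22 + 12 * (w : ℝ) + 20 * ((Ω : ℝ) + 1) * w := by push_cast; ring
      calc ((22 + 12 * w + 20 * (Ω + 1) * w : ℕ) : ℝ) * Real.log 2 ≤
            ((22 + 12 * w + 20 * (Ω + 1) * w : ℕ) : ℝ) * 1 :=
            mul_le_mul_of_nonneg_left (by linarith) e3
        _ = 22 + 12 * (w : ℝ) + 20 * ((Ω : ℝ) + 1) * w := by rw [mul_one, e4]
        _ ≤ _ := hN
    exact_mod_cast e1

/-- the numerical condition -/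
theorem djn_nc (X q L T t u : ℕ) (hq : 2 ≤ q) (hX : X < 2 ^ L) (hL : 100 ≤ L) (hT : T = 2 ^ t)
    (ht : t ≤ L ^ 2) (hu : 1 ≤ u) (huL : u ≤ L ^ 2) :
    NC q (1000 * L ^ 6 * T) (1000 * L ^ 6) ((L + 2) * T * (X ^ 30) ^ (L + 1)) (X ^ (L * T)) u := by
  obtain ⟨A, hA⟩ : ∃ A, A = 1000 * L ^ 6 * T := ⟨_, rfl⟩
  obtain ⟨B, hB⟩ : ∃ B, B = 1000 * L ^ 6 := ⟨_, rfl⟩
  obtain ⟨D, hD⟩ : ∃ D, D = (L + 2) * T * (X ^ 30) ^ (L + 1) := ⟨_, rfl⟩
  rw [← hA, ← hB, ← hD]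
  have hT1 : 1 ≤ T := hT ▸ Nat.one_le_two_pow
  have hL1 : 1 ≤ L := by omega
  have hDle : D ≤ 2 ^ (31 * L + 1 + 30 * L ^ 2 + t) := by
    have e1 : L + 2 ≤ 2 ^ (L + 1) := Nat.lt_two_pow_self
    calc D ≤ 2 ^ (L + 1) * 2 ^ t * ((2 ^ L) ^ 30) ^ (L + 1) := by
          rw [hD, hT]
          exact Nat.mul_le_mul (Nat.mul_le_mul_right _ e1)
            (Nat.pow_le_pow_left (Nat.pow_le_pow_left hX.le _) _)
      _ = 2 ^ (31 * L + 1 + 30 * L ^ 2 + t) := by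
          rw [← pow_mul, ← pow_mul, ← pow_add, ← pow_add]
          congr 1
          ring
  have hD2 : 2 * D ^ 2 ≤ 2 ^ (63 * L ^ 2) := by
    calc 2 * D ^ 2 ≤ 2 ^ 1 * (2 ^ (31 * L + 1 + 30 * L ^ 2 + t)) ^ 2 :=
          Nat.mul_le_mul (by norm_num) (Nat.pow_le_pow_left hDle 2)
      _ = 2 ^ (1 + (31 * L + 1 + 30 * L ^ 2 + t) * 2) := by rw [← pow_mul, ← pow_add]
      _ ≤ 2 ^ (63 * L ^ 2) := by
          refine Nat.pow_le_pow_right (by norm_num) ?_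
          nlinarith
  have h1 : ((u + 1) * (2 * D ^ 2) ^ (u + 1)) ^ A ≤ 2 ^ (127 * L ^ 2 * u * A) := by
    rw [pow_mul]
    refine Nat.pow_le_pow_left ?_ A
    have e1 : u + 1 ≤ 2 ^ u := Nat.lt_two_pow_self
    calc (u + 1) * (2 * D ^ 2) ^ (u + 1) ≤ 2 ^ u * (2 ^ (63 * L ^ 2)) ^ (u + 1) :=
          Nat.mul_le_mul e1 (Nat.pow_le_pow_left hD2 _)
      _ = 2 ^ (u + 63 * L ^ 2 * (u + 1)) := by rw [← pow_mul, ← pow_add]
      _ ≤ 2 ^ (127 * L ^ 2 * u) := by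
          refine Nat.pow_le_pow_right (by norm_num) ?_
          have e2 : 63 * L ^ 2 * (u + 1) ≤ 63 * L ^ 2 * (2 * u) :=
            Nat.mul_le_mul_left _ (by omega)
          have e3 : u ≤ L ^ 2 * u := Nat.le_mul_of_pos_left _ (by positivity)
          nlinarith
  have h2 : ((X ^ (L * T)) ^ (u + 1)) ^ B ≤ 2 ^ (2 * L ^ 2 * T * u * B) := by
    rw [pow_mul 2 (2 * L ^ 2 * T * u) B]
    refine Nat.pow_le_pow_left ?_ B
    calc (X ^ (L * T)) ^ (u + 1) ≤ ((2 ^ L) ^ (L * T)) ^ (u + 1) :=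
          Nat.pow_le_pow_left (Nat.pow_le_pow_left hX.le _) _
      _ = 2 ^ (L * (L * T) * (u + 1)) := by
          rw [← pow_mul, ← pow_mul]
          congr 1
          ring
      _ ≤ 2 ^ (2 * L ^ 2 * T * u) := by
          refine Nat.pow_le_pow_right (by norm_num) ?_
          calc L * (L * T) * (u + 1) ≤ L * (L * T) * (2 * u) := Nat.mul_le_mul_left _ (by omega)
            _ = 2 * L ^ 2 * T * u := by ring
  have h3 : (A + u).choose u ≤ 2 ^ (A + u) := Nat.choose_le_two_pow _ _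
  have hM : (B * (A + u).choose u) * (((u + 1) * (2 * D ^ 2) ^ (u + 1)) ^ A *
      ((X ^ (L * T)) ^ (u + 1)) ^ B) <
      2 ^ (B + (A + u) + (127 * L ^ 2 * u * A + 2 * L ^ 2 * T * u * B)) := by
    rw [pow_add 2 (B + (A + u)), pow_add 2 B, pow_add 2 (127 * L ^ 2 * u * A)]
    refine Nat.mul_lt_mul_of_lt_of_le ?_ (Nat.mul_le_mul h1 h2) (by positivity)
    exact Nat.mul_lt_mul_of_lt_of_le Nat.lt_two_pow_self h3 (by positivity)
  refine lt_of_lt_of_le hM ?_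
  refine le_trans ?_ (Nat.pow_le_pow_left hq _)
  refine Nat.pow_le_pow_right (by norm_num) ?_
  rw [Nat.le_div_iff_mul_le (by norm_num)]
  refine Nat.le_sub_of_add_le ?_
  rw [Nat.le_div_iff_mul_le (by omega)]
  obtain ⟨Z, hZ⟩ : ∃ Z, Z = L ^ 12 * T := ⟨_, rfl⟩
  have hu2 : u * u ≤ L ^ 4 := by
    calc u * u ≤ L ^ 2 * L ^ 2 := Nat.mul_le_mul huL huL
      _ = L ^ 4 := by ring
  have k1 : B * u ≤ 1000 * Z := by
    calc B * u ≤ (1000 * L ^ 6) * L ^ 2 := by rw [hB]; exact Nat.mul_le_mul_left _ huL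
      _ = 1000 * (L ^ 8 * 1) := by ring
      _ ≤ 1000 * Z := by
          rw [hZ]
          exact Nat.mul_le_mul_left _ (Nat.mul_le_mul (Nat.pow_le_pow_right hL1 (by norm_num)) hT1)
  have k2 : A * u ≤ 1000 * Z := by
    calc A * u ≤ (1000 * L ^ 6 * T) * L ^ 2 := by rw [hA]; exact Nat.mul_le_mul_left _ huL
      _ = 1000 * (L ^ 8 * T) := by ring
      _ ≤ 1000 * Z := by
          rw [hZ]
          exact Nat.mul_le_mul_left _ (Nat.mul_le_mul_right _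
            (Nat.pow_le_pow_right hL1 (by norm_num)))
  have k3 : u * u ≤ Z := by
    refine hu2.trans ?_
    rw [hZ]
    calc L ^ 4 = L ^ 4 * 1 := (mul_one _).symm
      _ ≤ _ := Nat.mul_le_mul (Nat.pow_le_pow_right hL1 (by norm_num)) hT1
  have k4 : 127 * L ^ 2 * u * A * u ≤ 127000 * Z := by
    calc 127 * L ^ 2 * u * A * u = 127 * L ^ 2 * A * (u * u) := by ring
      _ ≤ 127 * L ^ 2 * A * L ^ 4 := Nat.mul_le_mul_left _ hu2
      _ = 127000 * Z := by rw [hA, hZ]; ring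
  have k5 : 2 * L ^ 2 * T * u * B * u ≤ 2000 * Z := by
    calc 2 * L ^ 2 * T * u * B * u = 2 * L ^ 2 * T * B * (u * u) := by ring
      _ ≤ 2 * L ^ 2 * T * B * L ^ 4 := Nat.mul_le_mul_left _ hu2
      _ = 2000 * Z := by rw [hB, hZ]; ring
  have k6 : A * B = 1000000 * Z := by
    rw [hA, hB, hZ]
    ring
  have k7 : ((B + (A + u) + (127 * L ^ 2 * u * A + 2 * L ^ 2 * T * u * B)) * 2 + 2 * A) * u =
      2 * (B * u) + 4 * (A * u) + 2 * (u * u) + 2 * (127 * L ^ 2 * u * A * u) +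
        2 * (2 * L ^ 2 * T * u * B * u) := by ring
  rw [k7, k6]
  omega

theorem pf_DJN : T_DJN := by
  intro β hβ0 hβ
  obtain ⟨X₀, hX₀, hev⟩ := djn_ev β hβ0 hβ
  refine ⟨X₀, hX₀, ?_⟩
  intro X q r e Ω s n m hX hq hqX hm hΩ hs hn hr he
  obtain ⟨hL, hΩL, htL, he2⟩ := hev X Ω e hX hΩ he
  obtain ⟨w, hw⟩ : ∃ w, w = Nat.log 2 (Nat.log 2 X + 1) + 1 := ⟨_, rfl⟩
  rw [← hw] at htL he2
  rw [← hm] at hL hΩL htL hw
  obtain ⟨t, ht⟩ : ∃ t, t = 20 * (Ω + 1) * w := ⟨_, rfl⟩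
  rw [← ht] at htL he2
  have hXm : X < 2 ^ m := hm ▸ Nat.lt_pow_succ_log_self (by norm_num) X
  have hmw : m < 2 ^ w := hw ▸ Nat.lt_pow_succ_log_self (by norm_num) m
  have hw7 : 7 ≤ w := by
    by_contra hlt
    push Not at hlt
    have : 2 ^ w ≤ 2 ^ 6 := Nat.pow_le_pow_right (by norm_num) (by omega)
    omega
  obtain ⟨T, hT⟩ : ∃ T, T = 2 ^ t := ⟨_, rfl⟩
  have hT1 : 1 ≤ T := hT ▸ Nat.one_le_two_pow
  have hm1 : 1 ≤ m := by omega
  have hrm : r ≤ m * Ω := by omega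
  have hmΩ : m * Ω + 1 ≤ m ^ 2 := by nlinarith
  have hr2 : r + 1 ≤ m ^ 2 := by omega
  have hm6 : m ^ 6 ≤ 2 ^ (6 * w) := by
    calc m ^ 6 ≤ (2 ^ w) ^ 6 := Nat.pow_le_pow_left hmw.le _
      _ = 2 ^ (6 * w) := by rw [← pow_mul, mul_comm]
  have hm2 : m ^ 2 ≤ 2 ^ (2 * w) := by
    calc m ^ 2 ≤ (2 ^ w) ^ 2 := Nat.pow_le_pow_left hmw.le _
      _ = 2 ^ (2 * w) := by rw [← pow_mul, mul_comm]
  have hB : 1000 * m ^ 6 ≤ 2 ^ (10 + 6 * w) := by
    rw [pow_add]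
    exact Nat.mul_le_mul (by norm_num) hm6
  have heZ : 4000000 * (m ^ 12 * T) ≤ e := by
    refine le_trans ?_ he2
    have e1 : m ^ 12 ≤ 2 ^ (12 * w) := by
      calc m ^ 12 ≤ (2 ^ w) ^ 12 := Nat.pow_le_pow_left hmw.le _
        _ = 2 ^ (12 * w) := by rw [← pow_mul, mul_comm]
    calc 4000000 * (m ^ 12 * T) ≤ 2 ^ 22 * (2 ^ (12 * w) * 2 ^ t) := by
          rw [hT]
          exact Nat.mul_le_mul (by norm_num) (Nat.mul_le_mul_right _ e1)
      _ = 2 ^ (22 + 12 * w + t) := by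
          rw [← pow_add, ← pow_add]
          congr 1
          ring
  have hmZ : m ≤ m ^ 12 * T := by
    calc m = m ^ 1 * 1 := by ring
      _ ≤ m ^ 12 * T := Nat.mul_le_mul (Nat.pow_le_pow_right hm1 (by norm_num)) hT1
  have hmmZ : m * m * T ≤ m ^ 12 * T := by
    refine Nat.mul_le_mul_right _ ?_
    calc m * m = m ^ 2 := by ring
      _ ≤ m ^ 12 := Nat.pow_le_pow_right hm1 (by norm_num)
  have hAB : (1000 * m ^ 6 * T) * (1000 * m ^ 6) = 1000000 * (m ^ 12 * T) := by ring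
  refine ⟨T, hT1, fun κ hκ => ⟨1000 * m ^ 6 * T, 1000 * m ^ 6, ?_, ?_, ?_, ?_, ?_, ?_⟩⟩
  · exact Nat.one_le_iff_ne_zero.2 (by positivity)
  · have := Nat.one_le_pow 6 m hm1
    omega
  · have hκ31 : κ ≤ 31 * m := by
      have h1 : 2 ^ κ ≤ 2 ^ (31 * m) := by
        calc 2 ^ κ ≤ q ^ κ := Nat.pow_le_pow_left hq _
          _ ≤ q * X ^ 30 := hκ
          _ ≤ 2 ^ m * (2 ^ m) ^ 30 := Nat.mul_le_mul (hqX.trans hXm.le)
              (Nat.pow_le_pow_left hXm.le _)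
          _ = 2 ^ (31 * m) := by rw [← pow_succ', ← pow_mul, mul_comm]
      exact (Nat.pow_le_pow_iff_right (by norm_num)).1 h1
    rw [hAB]
    omega
  · have hκ31 : κ ≤ 31 * m := by
      have h1 : 2 ^ κ ≤ 2 ^ (31 * m) := by
        calc 2 ^ κ ≤ q ^ κ := Nat.pow_le_pow_left hq _
          _ ≤ q * X ^ 30 := hκ
          _ ≤ 2 ^ m * (2 ^ m) ^ 30 := Nat.mul_le_mul (hqX.trans hXm.le)
              (Nat.pow_le_pow_left hXm.le _)
          _ = 2 ^ (31 * m) := by rw [← pow_succ', ← pow_mul, mul_comm]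
      exact (Nat.pow_le_pow_iff_right (by norm_num)).1 h1
    have h1 : m * (m * T) ≤ e - 3 - κ := by
      have : m * (m * T) = m * m * T := by ring
      omega
    have hmT : m * T ≠ 0 := by positivity
    calc X ^ (m * T) < (2 ^ m) ^ (m * T) := Nat.pow_lt_pow_left hXm hmT
      _ = 2 ^ (m * (m * T)) := by rw [← pow_mul]
      _ ≤ 2 ^ (e - 3 - κ) := Nat.pow_le_pow_right (by norm_num) h1
      _ ≤ q ^ (e - 3 - κ) := Nat.pow_le_pow_left hq _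
  · intro u hu hur
    exact djn_nc X q m T t u hq hXm hL hT htL hu (by omega)
  · have hnr : n = r + (m - s) := by omega
    have hn0 : n ≠ 0 := by omega
    have h1 : (r + 1) * (1000 * m ^ 6 * T) ≤ 2 ^ (10 * w) * T := by
      calc (r + 1) * (1000 * m ^ 6 * T) = (r + 1) * (1000 * m ^ 6) * T := by ring
        _ ≤ 2 ^ (2 * w) * 2 ^ (10 + 6 * w) * T :=
            Nat.mul_le_mul_right _ (Nat.mul_le_mul (hr2.trans hm2) hB)
        _ = 2 ^ (2 * w + (10 + 6 * w)) * T := by rw [← pow_add]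
        _ ≤ 2 ^ (10 * w) * T :=
            Nat.mul_le_mul_right _ (Nat.pow_le_pow_right (by norm_num) (by omega))
    have h2 : ((r + 1) * (1000 * m ^ 6 * T)) ^ r ≤ 2 ^ (10 * w * r) * T ^ r := by
      rw [pow_mul, ← mul_pow]
      exact Nat.pow_le_pow_left h1 r
    have h3 : (r + 1) * (1000 * m ^ 6) * (4 * X) ≤ 2 ^ (10 * w * m) := by
      calc (r + 1) * (1000 * m ^ 6) * (4 * X) ≤ 2 ^ (2 * w) * 2 ^ (10 + 6 * w) * (2 ^ 2 * 2 ^ m) :=
            Nat.mul_le_mul (Nat.mul_le_mul (hr2.trans hm2) hB)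
              (Nat.mul_le_mul (by norm_num) hXm.le)
        _ = 2 ^ (2 * w + (10 + 6 * w) + (2 + m)) := by rw [← pow_add, ← pow_add, ← pow_add]
        _ ≤ 2 ^ (10 * w * m) := by
            refine Nat.pow_le_pow_right (by norm_num) ?_
            nlinarith
    have h4 : 10 * w * m + 10 * w * r ≤ t * (m - s) := by
      have e1 : 10 * w * r ≤ 10 * w * (m * Ω) := Nat.mul_le_mul_left _ hrm
      have e2 : t * m ≤ t * (2 * (m - s)) := Nat.mul_le_mul_left _ (by omega)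
      have e3 : t * m = 2 * (10 * w * m + 10 * w * (m * Ω)) := by rw [ht]; ring
      have e4 : t * (2 * (m - s)) = 2 * (t * (m - s)) := by ring
      omega
    calc (r + 1) * (1000 * m ^ 6) * ((r + 1) * (1000 * m ^ 6 * T)) ^ r * (4 * X)
        = ((r + 1) * (1000 * m ^ 6) * (4 * X)) * ((r + 1) * (1000 * m ^ 6 * T)) ^ r := by ring
      _ ≤ 2 ^ (10 * w * m) * (2 ^ (10 * w * r) * T ^ r) := Nat.mul_le_mul h3 h2
      _ = T ^ r * 2 ^ (10 * w * m + 10 * w * r) := by rw [pow_add]; ring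
      _ ≤ T ^ r * 2 ^ (t * (m - s)) :=
          Nat.mul_le_mul_left _ (Nat.pow_le_pow_right (by norm_num) h4)
      _ = T ^ n := by rw [hnr, pow_add, pow_mul, ← hT]
      _ < (T + 1) ^ n := Nat.pow_lt_pow_left (by omega) hn0

end Pool.Agent.H94.AB
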